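import Pool.Agent.LibFB69.Crit

set_option autoImplicit false

namespace Pool.Agent.Results.MP_51ab1e_al.HyperabelianParts

open Pool.Agent.LibFB69

universe u

theorem result (V Y : (G : Type u) → [Group G] → Prop) (hV : FinBased V) (hS : StrongGB V)
    (hY : FinBased Y)
    (h : (∃ d : ℕ, SolvByClass V Y d) ∨ (IsVariety (Bar V) ∧ HyperabOver V Y)) :
    (FinBased (Bar V) ↔ FinBased (Bar (Inter V Y))) ∧
    ((∀ p k : ℕ, p.Prime → ∀ (G : Type u) [Group G], V G → Y G → (∀ x : G, x ^ p ^ k = 1) →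
        (∃ x : G, x ^ 12 ≠ 1) → LocNilp G) → FinBased (Bar V)) :=
  ⟨both_iff hV hS hY h, fun h2 => (both_iff hV hS hY h).mpr (inter_pos hV hS hY h2)⟩

end Pool.Agent.Results.MP_51ab1e_al.HyperabelianParts
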