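import Pool.Agent.H63FB.Periodic

/-!
For a finitely based strong generalised Burnside variety with constants `c`, `e` the finite basis
question for its locally nilpotent part is equivalent to the finite basis questions for its
locally nilpotent groups of exponent `q`, `q` the prime powers exactly dividing `e`.
-/

namespace Pool.Agent.Results.MP_51ab1e_al.PrimePowerReduction

open Pool.Agent.H63FB

universe u

theorem result (S : Finset Word) (c e : ℕ) (h : IsSGB.{u} c e (S : Set Word)) :
    FinBased.{u} (Bar (S : Set Word)) ↔
      ∀ p : ℕ, p.Prime → p ∣ e →
        FinBased.{u} (BarExp (S : Set Word) (p ^ e.factorization p)) :=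
  periodic_iff h.2.1 S h.2.2

end Pool.Agent.Results.MP_51ab1e_al.PrimePowerReduction
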